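import Mathlib

namespace Pool.Agent.Results.MP_c51eea_al.Dihedral

universe u v

/-- The key step: a unit `r` which is inverted by an involution `s` satisfies `r ^ 4 = 1` if every
unit commutes with `r` up to a factor `s`, and all units have `2`-power order. -/
theorem core {R : Type u} [Ring R] [Finite R] (r s : Rˣ) (hs : s * s = 1)
    (hsr : s * r = r⁻¹ * s)
    (hU : ∀ u : Rˣ, Commute u r ∨ ∃ k : Rˣ, Commute k r ∧ u = k * s)
    (h2 : ∀ u : Rˣ, ∃ t : ℕ, u ^ (2 ^ t) = 1) : r ^ 4 = 1 := by
  -- the case when `s` commutes with `r`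
  by_cases hcomm : s * r = r * s
  · have h1 : r⁻¹ = r := mul_right_cancel (hsr.symm.trans hcomm)
    have h3 : r * r = 1 := by
      nth_rewrite 1 [← h1]
      exact inv_mul_cancel r
    calc r ^ 4 = (r * r) * (r * r) := by simp only [pow_succ, pow_zero, one_mul, mul_assoc]
      _ = 1 := by rw [h3, one_mul]
  have hs' : (s : R) * s = 1 := by rw [← Units.val_mul, hs, Units.val_one]
  have hsr' : (s : R) * r = (r⁻¹ : Rˣ) * s := by rw [← Units.val_mul, hsr, Units.val_mul]
  have hrr : (r : R) * (r⁻¹ : Rˣ) = 1 := r.mul_inv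
  have hrr' : ((r⁻¹ : Rˣ) : R) * r = 1 := r.inv_mul
  -- every unit of the form `1 + x s` with `x` commuting with `r` commutes with `r`
  have key : ∀ x : R, Commute x (r : R) → IsUnit (1 + x * s) → x * ((r : R) * r - 1) = 0 := by
    intro x hx ⟨u, hu⟩
    rcases hU u with h | ⟨k, hk, huk⟩
    · have h' : (u : R) * r = r * u := by rw [← Units.val_mul, h.eq, Units.val_mul]
      rw [hu] at h'
      have h3 : x * s * r = r * (x * s) := by
        have : (1 + x * s) * (r : R) = r + x * s * r := by noncomm_ring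
        rw [this] at h'
        have : (r : R) * (1 + x * s) = r + r * (x * s) := by noncomm_ring
        rw [this] at h'
        exact add_left_cancel h'
      have h4 : x * ((r⁻¹ : Rˣ) : R) = x * r := by
        have h5 : x * s * r * s = r * (x * s) * s := by rw [h3]
        have h6 : x * s * r * s = x * ((r⁻¹ : Rˣ) : R) := by
          calc x * s * r * s = x * (s * r) * s := by noncomm_ring
            _ = x * ((r⁻¹ : Rˣ) * s) * s := by rw [hsr']
            _ = x * (r⁻¹ : Rˣ) * (s * s) := by noncomm_ring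
            _ = x * (r⁻¹ : Rˣ) := by rw [hs', mul_one]
        have h7 : (r : R) * (x * s) * s = x * r := by
          calc (r : R) * (x * s) * s = (r * x) * (s * s) := by noncomm_ring
            _ = x * r := by rw [hs', mul_one, hx.eq]
        rw [← h6, h5, h7]
      calc x * ((r : R) * r - 1) = (x * r) * r - x := by noncomm_ring
        _ = (x * (r⁻¹ : Rˣ)) * r - x := by rw [h4]
        _ = x * ((r⁻¹ : Rˣ) * r) - x := by noncomm_ring
        _ = 0 := by rw [hrr', mul_one, sub_self]
    · exfalso
      apply hcomm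
      have h3 : (1 : R) = (k - x) * s := by
        have : (u : R) = k * s := by rw [huk]; rfl
        rw [hu] at this
        rw [sub_mul, ← this, add_sub_cancel_right]
      have h4 : (s : R) = k - x := by
        calc (s : R) = 1 * s := (one_mul _).symm
          _ = (k - x) * s * s := by rw [← h3]
          _ = (k - x) * (s * s) := by noncomm_ring
          _ = k - x := by rw [hs', mul_one]
      have hk' : Commute (k : R) (r : R) := by
        change (k : R) * r = r * k
        rw [← Units.val_mul, hk.eq, Units.val_mul]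
      have h5 : Commute (s : R) (r : R) := by
        rw [h4]
        exact hk'.sub_left hx
      exact Units.ext h5.eq
  -- splitting off the `2`-part
  have hfin : Nat.card R ≠ 0 := Nat.card_pos.ne'
  obtain ⟨m, q, hq, hN⟩ := Nat.exists_eq_two_pow_mul_odd hfin
  have hN0 : ((2 : R) ^ m * (q : R)) = 0 := by
    have h : ((Nat.card R : ℕ) : R) = 0 := by
      rw [← nsmul_one]
      exact card_nsmul_eq_zero'
    rw [hN] at h
    exact_mod_cast h
  have hcop : Nat.Coprime (2 ^ m) q := Nat.Coprime.pow_left m hq.coprime_two_left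
  obtain ⟨a, b, hab⟩ : ∃ a b : ℤ, a * (2 ^ m : ℕ) + b * (q : ℤ) = 1 :=
    Int.isCoprime_iff_gcd_eq_one.mpr (by exact_mod_cast hcop)
  have hef : (b : R) * (q : R) + (a : R) * (2 : R) ^ m = 1 := by
    have := congrArg (Int.cast : ℤ → R) hab
    push_cast at this
    rw [add_comm]
    exact this
  obtain ⟨e, he⟩ : ∃ e : R, e = (b : R) * (q : R) := ⟨_, rfl⟩
  obtain ⟨f, hf⟩ : ∃ f : R, f = (a : R) * (2 : R) ^ m := ⟨_, rfl⟩
  rw [← he, ← hf] at hef
  have hec : ∀ x : R, Commute e x := by
    intro x
    rw [he]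
    exact (Int.cast_commute b x).mul_left (Nat.cast_commute q x)
  have hfc : ∀ x : R, Commute f x := by
    intro x
    rw [hf]
    exact (Int.cast_commute a x).mul_left ((Commute.ofNat_left 2 x).pow_left m)
  have he2 : (2 : R) ^ m * e = 0 := by
    rw [he]
    calc (2 : R) ^ m * (b * q) = b * (2 ^ m * q) := by
          rw [← mul_assoc, ((Int.cast_commute b ((2 : R) ^ m)).eq).symm, mul_assoc]
      _ = 0 := by rw [hN0, mul_zero]
  have hfq : (q : R) * f = 0 := by
    rw [hf]
    calc (q : R) * (a * 2 ^ m) = a * (2 ^ m * q) := by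
          rw [(Nat.cast_commute q ((a : R) * 2 ^ m)).eq, mul_assoc]
      _ = 0 := by rw [hN0, mul_zero]
  -- `2`-part
  have h2c : ∀ x : R, Commute (2 : R) x := fun x => Commute.ofNat_left 2 x
  have hnil2 : IsNilpotent (2 * e) := by
    refine ⟨m + 1, ?_⟩
    rw [(h2c e).mul_pow, pow_succ (2 : R), pow_succ' e]
    calc (2 : R) ^ m * 2 * (e * e ^ m) = 2 ^ m * (2 * e) * e ^ m := by noncomm_ring
      _ = 2 ^ m * (e * 2) * e ^ m := by rw [(h2c e).eq]
      _ = (2 ^ m * e) * (2 * e ^ m) := by noncomm_ring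
      _ = 0 := by rw [he2, zero_mul]
  have hA : (2 * e) * ((r : R) * r - 1) = 0 := by
    apply key
    · exact (h2c (r : R)).mul_left (hec r)
    · apply IsNilpotent.isUnit_one_add
      exact ((h2c (s : R)).mul_left (hec s)).isNilpotent_mul_right hnil2
  have hnilr : IsNilpotent (e * ((r : R) - 1)) := by
    obtain ⟨k, hk⟩ := h2 r
    have hk' : (r : R) ^ (2 ^ (k + 1)) = 1 := by
      rw [← Units.val_pow_eq_pow_val, pow_succ 2 k, pow_mul, hk, one_pow, Units.val_one]
    obtain ⟨c, hc⟩ := (Commute.one_right (r : R)).neg_right.exists_add_pow_prime_pow_eq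
      Nat.prime_two (k + 1)
    obtain ⟨c', hc'⟩ : ∃ c' : R, c' = -(r * c) := ⟨_, rfl⟩
    have h1 : ((r : R) - 1) ^ (2 ^ (k + 1)) = 2 * (1 + c') := by
      rw [sub_eq_add_neg, hc, hk']
      have : (-1 : R) ^ (2 ^ (k + 1)) = 1 := by
        rw [pow_succ' 2 k, pow_mul, neg_one_sq, one_pow]
      rw [this, hc']
      push_cast
      noncomm_ring
    have h3 : IsNilpotent ((e * ((r : R) - 1)) ^ (2 ^ (k + 1))) := by
      rw [(hec _).mul_pow, h1]
      have h4 : e ^ (2 ^ (k + 1)) * (2 * (1 + c')) =
          (2 * e) * (e ^ (2 ^ (k + 1) - 1) * (1 + c')) := by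
        have : e ^ (2 ^ (k + 1)) = e * e ^ (2 ^ (k + 1) - 1) := by
          rw [← pow_succ', Nat.sub_add_cancel Nat.one_le_two_pow]
        rw [this, ← mul_assoc, ← (h2c (e * e ^ (2 ^ (k + 1) - 1))).eq]
        noncomm_ring
      rw [h4]
      apply Commute.isNilpotent_mul_right _ hnil2
      exact (h2c _).mul_left (hec _)
    exact h3.of_pow
  have hB : (e * ((r : R) - 1)) * ((r : R) * r - 1) = 0 := by
    apply key
    · exact (hec (r : R)).mul_left ((Commute.refl (r : R)).sub_left (Commute.one_left _))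
    · apply IsNilpotent.isUnit_one_add
      have h1 : (e * ((r : R) - 1) * s) ^ 2 =
          (e * ((r : R) - 1)) * (e * (((r⁻¹ : Rˣ) : R) - 1)) := by
        have h3 : (s : R) * ((r : R) - 1) * s = ((r⁻¹ : Rˣ) : R) - 1 := by
          calc (s : R) * ((r : R) - 1) * s = (s * r) * s - s * s := by noncomm_ring
            _ = ((r⁻¹ : Rˣ) * s) * s - s * s := by rw [hsr']
            _ = (r⁻¹ : Rˣ) * (s * s) - s * s := by noncomm_ring
            _ = ((r⁻¹ : Rˣ) : R) - 1 := by rw [hs', mul_one]
        calc (e * ((r : R) - 1) * s) ^ 2 = (e * ((r : R) - 1)) * ((s * e) * (((r : R) - 1) * s)) := by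
              noncomm_ring
          _ = (e * ((r : R) - 1)) * ((e * s) * (((r : R) - 1) * s)) := by rw [(hec s).eq]
          _ = (e * ((r : R) - 1)) * (e * (s * ((r : R) - 1) * s)) := by noncomm_ring
          _ = _ := by rw [h3]
      have h2' : IsNilpotent ((e * ((r : R) - 1) * s) ^ 2) := by
        rw [h1]
        apply Commute.isNilpotent_mul_right _ hnilr
        have hri : Commute (r : R) ((r⁻¹ : Rˣ) : R) := by
          change (r : R) * (r⁻¹ : Rˣ) = (r⁻¹ : Rˣ) * r
          rw [hrr, hrr']
        have h5 : Commute ((r : R) - 1) (((r⁻¹ : Rˣ) : R) - 1) :=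
          (hri.sub_right (Commute.one_right _)).sub_left (Commute.one_left _)
        exact (hec _).mul_left (((hec _).symm).mul_right h5)
      exact h2'.of_pow
  -- odd part
  have hC : f * ((r : R) * r - 1) = 0 := by
    have hcopt : ∀ t : ℕ, Nat.Coprime (2 ^ t) q := fun t =>
      Nat.Coprime.pow_left t hq.coprime_two_left
    obtain ⟨c, hc⟩ := hq
    have h2cf : (2 : R) * ((c : R) + 1) * f = f := by
      have : (q : R) * f = (2 * c + 1) * f := by rw [hc]; push_cast; rfl
      rw [hfq] at this
      calc (2 : R) * ((c : R) + 1) * f = (2 * c + 1) * f + f := by noncomm_ring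
        _ = f := by rw [← this, zero_add]
    have hcc : ∀ x : R, Commute ((c : R) + 1) x := fun x =>
      (Nat.cast_commute c x).add_left (Commute.one_left x)
    -- no nilpotents in the odd part
    have hred : ∀ n : R, n * n = 0 → (q : R) * n = 0 → n = 0 := by
      intro n hn hqn
      have hun : IsUnit (1 + n) := IsNilpotent.isUnit_one_add ⟨2, by rw [pow_two, hn]⟩
      obtain ⟨u, hu⟩ := hun
      have hpow : ∀ j : ℕ, (1 + n) ^ j = 1 + j * n := by
        intro j
        induction j with
        | zero => simp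
        | succ j ih =>
          rw [pow_succ, ih]
          push_cast
          have : (1 + (j : R) * n) * (1 + n) = 1 + ((j : R) + 1) * n + j * (n * n) := by noncomm_ring
          rw [this, hn, mul_zero, add_zero]
      have hq1 : u ^ q = 1 := by
        apply Units.ext
        rw [Units.val_pow_eq_pow_val, hu, hpow, hqn, add_zero, Units.val_one]
      obtain ⟨t, ht⟩ := h2 u
      have h1 : orderOf u ∣ q := orderOf_dvd_of_pow_eq_one hq1
      have h3 : orderOf u ∣ 2 ^ t := orderOf_dvd_of_pow_eq_one ht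
      have h4 : orderOf u = 1 := Nat.eq_one_of_dvd_coprimes (hcopt t) h3 h1
      rw [orderOf_eq_one_iff] at h4
      rw [h4, Units.val_one] at hu
      exact (add_eq_left.mp hu.symm)
    -- the idempotent `E = f (1 + s) / 2`
    obtain ⟨E, hE⟩ : ∃ E : R, E = ((c : R) + 1) * f * (1 + s) := ⟨_, rfl⟩
    have hff : f * f = f := by
      have h1 : e * f = 0 := by
        rw [he, hf]
        calc (b : R) * q * (a * 2 ^ m) = b * (q * (a * 2 ^ m)) := by noncomm_ring
          _ = 0 := by rw [← hf, hfq, mul_zero]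
      calc f * f = (e + f) * f - e * f := by noncomm_ring
        _ = f := by rw [hef, one_mul, h1, sub_zero]
    have hEE : E * E = E := by
      rw [hE]
      have h1 : (1 + (s : R)) * (1 + s) = 2 * (1 + s) := by
        calc (1 + (s : R)) * (1 + s) = 1 + 2 * s + s * s := by noncomm_ring
          _ = 2 * (1 + s) := by rw [hs']; noncomm_ring
      have h3 : Commute (1 + (s : R)) (((c : R) + 1) * f) :=
        ((hcc _).mul_left (hfc _)).symm
      calc ((c : R) + 1) * f * (1 + s) * (((c : R) + 1) * f * (1 + s))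
          = ((c : R) + 1) * f * ((1 + s) * (((c : R) + 1) * f)) * (1 + s) := by noncomm_ring
        _ = ((c : R) + 1) * f * ((((c : R) + 1) * f) * (1 + s)) * (1 + s) := by rw [h3.eq]
        _ = ((c : R) + 1) * (f * (((c : R) + 1) * f)) * ((1 + s) * (1 + s)) := by noncomm_ring
        _ = ((c : R) + 1) * (f * (((c : R) + 1) * f)) * (2 * (1 + s)) := by rw [h1]
        _ = ((c : R) + 1) * (((c : R) + 1) * f * f) * (2 * (1 + s)) := by
            rw [(hfc (((c : R) + 1) * f)).eq]
        _ = ((c : R) + 1) * (((c : R) + 1) * f * 2) * (1 + s) := by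
            rw [mul_assoc ((c : R) + 1) f f, hff]; noncomm_ring
        _ = ((c : R) + 1) * (2 * (((c : R) + 1) * f)) * (1 + s) := by
            rw [((h2c (((c : R) + 1) * f)).symm).eq]
        _ = ((c : R) + 1) * (2 * ((c : R) + 1) * f) * (1 + s) := by rw [mul_assoc 2]
        _ = _ := by rw [h2cf]
    have hqE : (q : R) * E = 0 := by
      rw [hE]
      calc (q : R) * (((c : R) + 1) * f * (1 + s)) = (q * ((c : R) + 1)) * f * (1 + s) := by
            noncomm_ring
        _ = (((c : R) + 1) * q) * f * (1 + s) := by rw [(Nat.cast_commute q _).eq]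
        _ = ((c : R) + 1) * (q * f) * (1 + s) := by noncomm_ring
        _ = 0 := by rw [hfq, mul_zero, zero_mul]
    have hEr1 : E * (r : R) * (1 - E) = 0 := by
      apply hred
      · calc E * (r : R) * (1 - E) * (E * (r : R) * (1 - E))
            = E * (r : R) * ((1 - E) * E) * ((r : R) * (1 - E)) := by noncomm_ring
          _ = 0 := by rw [sub_mul, one_mul, hEE, sub_self, mul_zero, zero_mul]
      · calc (q : R) * (E * r * (1 - E)) = (q * E) * r * (1 - E) := by noncomm_ring
          _ = 0 := by rw [hqE, zero_mul, zero_mul]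
    have hEr2 : (1 - E) * (r : R) * E = 0 := by
      apply hred
      · calc (1 - E) * (r : R) * E * ((1 - E) * (r : R) * E)
            = (1 - E) * (r : R) * (E * (1 - E)) * ((r : R) * E) := by noncomm_ring
          _ = 0 := by rw [mul_sub, mul_one, hEE, sub_self, mul_zero, zero_mul]
      · calc (q : R) * ((1 - E) * r * E) = (q * ((1 - E) * r)) * E := by noncomm_ring
          _ = ((1 - E) * r) * (q * E) := by rw [(Nat.cast_commute q _).eq, mul_assoc]
          _ = 0 := by rw [hqE, mul_zero]
    have hEr : E * (r : R) = r * E := by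
      have h1 : E * (r : R) = E * r * E := by
        have : E * (r : R) * (1 - E) = E * r - E * r * E := by noncomm_ring
        rw [this] at hEr1
        exact sub_eq_zero.mp hEr1
      have h3 : (r : R) * E = E * r * E := by
        have : (1 - E) * (r : R) * E = r * E - E * r * E := by noncomm_ring
        rw [this] at hEr2
        exact sub_eq_zero.mp hEr2
      rw [h1, h3]
    -- hence `f s` commutes with `r`
    have h2E : (2 : R) * E = f * (1 + s) := by
      rw [hE]
      calc (2 : R) * (((c : R) + 1) * f * (1 + s)) = (2 * ((c : R) + 1) * f) * (1 + s) := by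
            noncomm_ring
        _ = _ := by rw [h2cf]
    have h3 : f * (s * r) = f * (r * s) := by
      have h4 : f * (1 + s) * r = r * (f * (1 + s)) := by
        rw [← h2E]
        calc (2 : R) * E * r = 2 * (E * r) := by rw [mul_assoc]
          _ = 2 * (r * E) := by rw [hEr]
          _ = (2 * r) * E := by rw [mul_assoc]
          _ = (r * 2) * E := by rw [(h2c _).eq]
          _ = r * (2 * E) := by rw [mul_assoc]
      have h5 : f * (1 + s) * r = f * r + f * (s * r) := by noncomm_ring
      have h6 : (r : R) * (f * (1 + s)) = r * f + (r * f) * s := by noncomm_ring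
      rw [h5, h6, ← (hfc (r : R)).eq, mul_assoc f] at h4
      exact add_left_cancel h4
    have h7 : f * ((r⁻¹ : Rˣ) : R) = f * r := by
      calc f * ((r⁻¹ : Rˣ) : R) = f * ((r⁻¹ : Rˣ) * s * s) := by rw [mul_assoc _ (s : R), hs', mul_one]
        _ = f * (s * r) * s := by rw [← hsr']; noncomm_ring
        _ = f * r * (s * s) := by rw [h3]; noncomm_ring
        _ = f * r := by rw [hs', mul_one]
    calc f * ((r : R) * r - 1) = (f * r) * r - f := by noncomm_ring
      _ = (f * (r⁻¹ : Rˣ)) * r - f := by rw [h7]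
      _ = f * ((r⁻¹ : Rˣ) * r) - f := by noncomm_ring
      _ = 0 := by rw [hrr', mul_one, sub_self]
  -- conclusion
  have h4 : (r : R) ^ 4 - 1 = 0 := by
    have h5 : e * ((r : R) ^ 4 - 1) = 0 := by
      have h6 : e * ((r : R) ^ 4 - 1) =
          e * ((r : R) - 1) * ((r : R) * r - 1) * (r + 1) + 2 * e * ((r : R) * r - 1) := by
        noncomm_ring
      rw [h6, hB, hA, zero_mul, zero_add]
    have h7 : f * ((r : R) ^ 4 - 1) = 0 := by
      calc f * ((r : R) ^ 4 - 1) = f * ((r : R) * r - 1) * (r * r + 1) := by noncomm_ring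
        _ = 0 := by rw [hC, zero_mul]
    calc (r : R) ^ 4 - 1 = (e + f) * ((r : R) ^ 4 - 1) := by rw [hef, one_mul]
      _ = 0 := by rw [add_mul, h5, h7, add_zero]
  apply Units.ext
  rw [Units.val_pow_eq_pow_val, Units.val_one]
  exact sub_eq_zero.mp h4

/-- A finite group `G` is realizable if it is the unit group of a finite ring. -/
def Realizable (G : Type u) [Group G] : Prop :=
  ∃ (R : Type u) (_ : Ring R), Finite R ∧ Nonempty (Rˣ ≃* G)

theorem not_iso (k : ℕ) (hk : 3 ≤ k) (H : Type u) [Group H] (hH : IsPGroup 2 H)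
    (R : Type v) [Ring R] [Finite R] (φ : Rˣ ≃* DihedralGroup (2 ^ k) × H) : False := by
  have hG : IsPGroup 2 (DihedralGroup (2 ^ k)) := by
    apply IsPGroup.of_card (n := k + 1)
    rw [DihedralGroup.nat_card, pow_succ, mul_comm]
  have hGH : ∀ g : DihedralGroup (2 ^ k) × H, ∃ t : ℕ, g ^ (2 ^ t) = 1 := by
    rintro ⟨g, h⟩
    obtain ⟨a, ha⟩ := hG g
    obtain ⟨b, hb⟩ := hH h
    refine ⟨a + b, ?_⟩
    rw [Prod.pow_mk, pow_add, pow_mul, ha, one_pow, mul_comm, pow_mul, hb, one_pow]
    rfl
  obtain ⟨r, hr⟩ : ∃ r : Rˣ, φ r = (DihedralGroup.r 1, 1) := ⟨φ.symm _, φ.apply_symm_apply _⟩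
  obtain ⟨s, hs⟩ : ∃ s : Rˣ, φ s = (DihedralGroup.sr 0, 1) := ⟨φ.symm _, φ.apply_symm_apply _⟩
  have h := core r s ?_ ?_ ?_ ?_
  · have h1 := congrArg φ h
    rw [map_pow, hr, map_one, Prod.pow_mk, DihedralGroup.r_one_pow, one_pow] at h1
    have h2 := congrArg Prod.fst h1
    change DihedralGroup.r ((4 : ℕ) : ZMod (2 ^ k)) = DihedralGroup.r 0 at h2
    rw [DihedralGroup.r.injEq, ZMod.natCast_eq_zero_iff] at h2
    have h3 := Nat.le_of_dvd (by norm_num) h2
    have h4 : 2 ^ 3 ≤ 2 ^ k := Nat.pow_le_pow_right (by norm_num) hk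
    omega
  · apply φ.injective
    rw [map_mul, hs, map_one, Prod.mk_mul_mk, DihedralGroup.sr_mul_sr, one_mul, sub_zero]
    rfl
  · apply φ.injective
    rw [map_mul, map_mul, map_inv, hs, hr, Prod.inv_mk, Prod.mk_mul_mk, Prod.mk_mul_mk,
      DihedralGroup.sr_mul_r, DihedralGroup.inv_r, DihedralGroup.r_mul_sr]
    simp
  · intro u
    obtain ⟨⟨g, h⟩, hgh⟩ : ∃ p, p = φ u := ⟨_, rfl⟩
    rcases g with i | i
    · left
      apply φ.injective
      rw [map_mul, map_mul, ← hgh, hr, Prod.mk_mul_mk, Prod.mk_mul_mk, DihedralGroup.r_mul_r,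
        DihedralGroup.r_mul_r, add_comm, one_mul, mul_one]
    · right
      refine ⟨φ.symm (DihedralGroup.r (-i), h), ?_, ?_⟩
      · apply φ.injective
        rw [map_mul, map_mul, φ.apply_symm_apply, hr, Prod.mk_mul_mk, Prod.mk_mul_mk,
          DihedralGroup.r_mul_r, DihedralGroup.r_mul_r, add_comm, one_mul, mul_one]
      · apply φ.injective
        rw [map_mul, φ.apply_symm_apply, hs, ← hgh, Prod.mk_mul_mk, DihedralGroup.r_mul_sr,
          mul_one, zero_sub, neg_neg]
  · intro u
    obtain ⟨t, ht⟩ := hGH (φ u)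
    refine ⟨t, φ.injective ?_⟩
    rw [map_pow, ht, map_one]

/-- For every `k ≥ 3` the dihedral group `G` of order `2 ^ (k + 1)` is a finite nonabelian
`2`-group such that `G × H` is not realizable for every (finite) `2`-group `H`. In particular `G`
is not realizable, and the question has a negative answer. -/
theorem result (k : ℕ) (hk : 3 ≤ k) :
    Finite (DihedralGroup (2 ^ k)) ∧ IsPGroup 2 (DihedralGroup (2 ^ k)) ∧
    (∃ a b : DihedralGroup (2 ^ k), a * b ≠ b * a) ∧
    ¬ Realizable (DihedralGroup (2 ^ k)) ∧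
    ∀ (H : Type) [Group H] [Finite H], IsPGroup 2 H →
      ¬ Realizable (DihedralGroup (2 ^ k) × H) := by
  have : NeZero (2 ^ k) := ⟨by positivity⟩
  refine ⟨inferInstance, ?_, ⟨DihedralGroup.r 1, DihedralGroup.sr 0, ?_⟩, ?_, ?_⟩
  · apply IsPGroup.of_card (n := k + 1)
    rw [DihedralGroup.nat_card, pow_succ, mul_comm]
  · rw [DihedralGroup.r_mul_sr, DihedralGroup.sr_mul_r]
    intro h
    rw [DihedralGroup.sr.injEq, zero_sub, zero_add, neg_eq_iff_add_eq_zero] at h
    have h2 : ((2 : ℕ) : ZMod (2 ^ k)) = 0 := by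
      push_cast
      rw [← h]; norm_num
    rw [ZMod.natCast_eq_zero_iff] at h2
    have h3 := Nat.le_of_dvd (by norm_num) h2
    have h4 : 2 ^ 3 ≤ 2 ^ k := Nat.pow_le_pow_right (by norm_num) hk
    omega
  · rintro ⟨R, _, _, ⟨φ⟩⟩
    exact not_iso k hk Unit (IsPGroup.of_card (n := 0) (by simp)) R
      (φ.trans (MulEquiv.prodUnique (M := DihedralGroup (2 ^ k)) (N := Unit)).symm)
  · rintro H _ _ hH ⟨R, _, _, ⟨φ⟩⟩
    exact not_iso k hk H hH R φ

end Pool.Agent.Results.MP_c51eea_al.Dihedral
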